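import Pool.Agent.Lib.helper11.Misere

namespace Pool.Agent.H.MP_1dd9c6_co

open Pool.Agent.Lib.helper11.Misere

def L : List (V × List V) := base ++
  [((0, 0, 1, 0, 0), [(0, 1, 0, 0, 0)]),
   ((0, 0, 0, 1, 0), [(0, 0, 0, 0, 0), (1, 0, 1, 0, 0)]),
   ((0, 0, 0, 0, 1), [(0, 0, 0, 1, 0), (0, 1, 0, 0, 0), (1, 0, 0, 0, 0), (1, 0, 1, 0, 0)])]

def T : ℕ := 873544121168761642504190661979953691716283503102925796185869570915667511921087638072723004463708575964463790678906283701035129649404833248315694138642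

lemma hL : ∀ g ∈ L, Un g.1 := by simp [L, base, Un]

lemma hm : ∀ g ∈ L, ∀ o ∈ g.2, mu o < mu g.1 := by decide

lemma c1 : chk L T 1 1 := by
  intro n hn
  interval_cases n <;> decide +kernel

lemma c2 : ∀ a < 3, ∀ b < 6, ∀ c < 6, ∀ d < 6, ∀ n < 3,
    Qf T 1 1 a b c (d + 1) n = true → Qf T 1 1 (a + 1) (b + 1) c d n = true → b + c + d = 0 := by
  have h : ∀ a < 3, ∀ b < 6, ∀ c < 6, ∀ d < 6, ∀ n < 3,
      (!Qf T 1 1 a b c (d + 1) n || !Qf T 1 1 (a + 1) (b + 1) c d n || Nat.beq (b + c + d) 0) = true := by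
    intro a ha
    interval_cases a <;> decide +kernel
  intro a ha b hb c hc d hd n hn h1 h2
  have := h a ha b hb c hc d hd n hn
  rw [h1, h2] at this
  simpa using this

lemma only (w : V) (h1 : Qb T 1 1 (w + (0, 0, 0, 1, 0)) = true)
    (h2 : Qb T 1 1 (w + (1, 1, 0, 0, 0)) = true) : w.2.1 = 0 ∧ w.2.2.1 = 0 ∧ w.2.2.2.1 = 0 := by
  rw [← Q_rho_add] at h1 h2
  obtain ⟨a, b, c, d, n⟩ := w
  simp only [rho, Prod.mk_add_mk, add_zero, ← Qf_eq] at h1 h2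
  have := c2 _ (rd_lt 1 2 a (by norm_num)) _ (rd_lt 4 2 b (by norm_num)) _
    (rd_lt 4 2 c (by norm_num)) _ (rd_lt 4 2 d (by norm_num)) _ (rd_lt 2 1 n (by norm_num)) h1 h2
  have hb := rd_pos 3 2 b
  have hc := rd_pos 3 2 c
  have hd := rd_pos 3 2 d
  simp only [Nat.reduceAdd] at hb hc hd
  refine ⟨?_, ?_, ?_⟩ <;> simp only <;> omega

lemma notP (a n : ℕ) : Qb T 1 1 ((a, 0, 0, 0, n) + (0, 0, 0, 0, 1)) = false := by
  rw [← Q_rho_add]
  have h : ∀ a < 3, ∀ n < 3, Qb T 1 1 ((a, 0, 0, 0, n) + (0, 0, 0, 0, 1)) = false := by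
    decide +kernel
  exact h _ (rd_lt 1 2 a (by norm_num)) _ (rd_lt 2 1 n (by norm_num))

lemma idem (z : V) : Qb T 1 1 ((0, 0, 0, 0, 1) + (0, 0, 0, 0, 1) + z) =
    Qb T 1 1 ((0, 0, 0, 0, 1) + z) := by
  obtain ⟨a, b, c, d, n⟩ := z
  have : rd 1 1 (1 + 1 + n) = rd 1 1 (1 + n) := by
    unfold rd
    rw [if_neg (by omega), if_neg (by omega), Nat.mod_one, Nat.mod_one]
  simp only [Qb, Prod.mk_add_mk, zero_add, this]

lemma p1 : Qb T 1 1 ((0, 0, 0, 0, 1) + (0, 0, 0, 1, 0)) = true := by decide +kernel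

lemma p2 : Qb T 1 1 ((0, 0, 0, 0, 1) + (1, 1, 0, 0, 0)) = true := by decide +kernel

end Pool.Agent.H.MP_1dd9c6_co
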